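import Pool.Agent.Run7.h772.EF.C
import Pool.Agent.N748.MJ.Fin

set_option autoImplicit false

/-!
# Joint moments of the local moments of zeta with respect to arbitrary measures: the energy formula

At distance `δ = d T` from the critical line, with `δ log T / log² (1/δ) → ∞`, take arbitrary finite Borel measures
`μ_j` on the line with bounded support (a window, a fractal set, a finite set of shifts, ...), real exponents `k_j > 0`,
and the local moments `∫ |ζ(1/2 + δ + i(t + u))|^(2 k_j) dμ_j(u)` of zeta around `t`. The mean value of their product over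
`t ∈ [0, T]`, times `(2δ)^(∑ k_j²)`, converges in `[0, ∞]` to the energy of the measures with respect to an explicit
kernel, which is infinite exactly when the energy is: a sharp criterion for the size of the joint moments.
-/

namespace Pool.Agent.Results.MP_6a632e_nt.EnergyFormula

open MeasureTheory Filter Topology Finset

/-- the modulus of zeta at distance `δ` from the critical line and height `u` -/
noncomputable def z (δ u : ℝ) : ℝ := ‖riemannZeta (1 / 2 + δ + u * Complex.I)‖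

/-- the mean value over `t ∈ [0, T]` of the product of the local moments of `|ζ(1/2 + δ + i(t + u))|^(2 k_j)` with
respect to the measures `μ_j`, the points with `|ζ| > (2δ)^(-V)` left out -/
noncomputable def M {m : ℕ} (k : Fin m → ℝ) (V : ℝ) (μ : Fin m → Measure ℝ) (δ T : ℝ) : ℝ :=
  (1 / T) * ∫ t in (0:ℝ)..T, ∏ j, ∫ u, (if z δ (t + u) ≤ (2 * δ) ^ (-V) then z δ (t + u) ^ (2 * k j) else 0) ∂(μ j)

/-- the coefficient of `x^m` in `(1-x)^(-s)` -/
noncomputable def c (s : ℂ) (m : ℕ) : ℂ := ∏ i ∈ range m, (s + i) / ((i : ℂ) + 1)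

/-- the arithmetic factor of the moment with the exponents `2 k_j` and the shifts `h_j` -/
noncomputable def A {m : ℕ} (k h : Fin m → ℝ) : ℝ :=
  ∏' p : Nat.Primes, (∏ j, ∏ l, ‖1 - (p : ℂ) ^ (-(1 + ((h j - h l : ℝ) : ℂ) * Complex.I))‖ ^ (k j * k l)) *
    ∑' r : ℕ, ‖∑ μ ∈ piAntidiag univ r, ∏ j, c (k j) (μ j) * (p : ℂ) ^ (-((μ j * h j : ℝ) * Complex.I))‖ ^ 2 *
      (1 / (p : ℝ)) ^ r

open Classical in
/-- the kernel of the energy: infinite if two of the points coincide -/
noncomputable def K {m : ℕ} (k u : Fin m → ℝ) : ENNReal :=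
  if Function.Injective u then ENNReal.ofReal
    (A k u * ∏ q ∈ (univ : Finset (Fin m)).offDiag, ‖riemannZeta (1 + (u q.1 - u q.2 : ℝ) * Complex.I)‖ ^ (k q.1 * k q.2))
  else ⊤

open Pool.Agent.N748.MG Pool.Agent.N748.MJ
open Run7.h772.EF (AV AV_eq gE KE energy)

lemma A_eq {m : ℕ} (k h : Fin m → ℝ) : A k h = AV k h := by
  rw [AV_eq posF]
  unfold A
  refine tprod_congr fun p => ?_
  unfold gE
  congr 1
  refine prod_congr rfl fun j _ => prod_congr rfl fun l _ => ?_
  unfold Pool.Agent.N748.MJ.POSV.bs Pool.Agent.N748.MJ.POSV.pu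
  simp

lemma K_eq {m : ℕ} (k u : Fin m → ℝ) : K k u = KE k u := by
  have h1 : ∏ q ∈ (univ : Finset (Fin m)).offDiag,
      ‖riemannZeta (1 + (u q.1 - u q.2 : ℝ) * Complex.I)‖ ^ (k q.1 * k q.2) =
      ∏ q ∈ Run7.h772.EF.OD m, Run7.h772.MM.Z 0 (u q.1 - u q.2) ^ (k q.1 * k q.2) := by
    refine prod_congr rfl fun q _ => ?_
    unfold Run7.h772.MM.Z
    congr 3
    simp
  unfold K KE
  rw [A_eq, h1]

theorem result (d : ℝ → ℝ) (hd : ∀ᶠ T : ℝ in atTop, 0 < d T) (hd0 : Tendsto d atTop (𝓝 0))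
    (hdL : Tendsto (fun T : ℝ => d T * Real.log T / Real.log (1 / d T) ^ 2) atTop atTop)
    (m : ℕ) (k : Fin m → ℝ) (hk : ∀ j, 0 < k j) (V : ℝ) (hV : ∑ j, k j < V)
    (μ : Fin m → Measure ℝ) [∀ j, IsFiniteMeasure (μ j)] (R : ℝ) (hR : ∀ j, μ j {x | R < |x|} = 0) :
    Tendsto (fun T : ℝ => ENNReal.ofReal ((2 * d T) ^ (∑ j, k j ^ 2) * M k V μ (d T) T)) atTop
      (𝓝 (∫⁻ u, K k u ∂(Measure.pi μ))) := by
  have hA : Ad d := ⟨hd, hd0, hdL⟩
  simp_rw [K_eq]
  exact energy smF posF conF hA k V hk hV μ hR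

end Pool.Agent.Results.MP_6a632e_nt.EnergyFormula
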