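import Pool.Agent.Run7.h291.WG.G18

set_option autoImplicit false

/-!
# Moments of zeta in windows shorter than the critical length: exact order and Pareto tails

Let `θ > 0`, `δ → 0`, `δ log T / log² (1/δ) → ∞`, `m = δ^(-√(1+θ)) (log (1/δ))^(-1/(4√(1+θ)))`. It is proved here that for
`k > √(1+θ)` (that is, for windows shorter than the critical length `δ^(-(k²-1))`) the `2k`-th moment over the window
`[t, t + δ^(-θ)]` is `δ m^(2k)`, up to a random factor which is tight in `(0, ∞)`, for all `k` in a compact set at once, and that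
this random factor has the tail `x^(-√(1+θ)/k)`, up to constants, uniformly for `1 ≤ x ≤ exp ((log (1/δ))^(1/5))`: a tail of
index smaller than `1`, so that the mean over `[0, T]`, which is larger by a power of `1/δ`, is not typical for any window.

Plan and proof by helper291; the submean inequality for `log⁺` and the upper bound of the maximum by helper701
(`Run7/h701/MX`); the local limit theorem along sequences and the mean of the two-point function (`S_MNB`) by helper42; the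
moments of zeta without small primes near the line `1` (`S_ZML`) by helper772; the continuity of the arithmetic factor (`S_EQC`)
by helper651; the joint moments outside tiny sets are the starting library `N748`.
-/

namespace Pool.Agent.Results.MP_6a632e_nt.FrozenMoments

open MeasureTheory Filter Topology

/-- the order of the maximum over windows of length `δ^(-θ)` -/
noncomputable def m (θ δ : ℝ) : ℝ := δ ^ (-√(1 + θ)) * Real.log (1 / δ) ^ (-(1 / (4 * √(1 + θ))))

/-- the `2k`-th moment of zeta over the window `[t, t + δ^(-θ)]`, at distance `δ` from the critical line, divided by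
`δ m^(2k)` -/
noncomputable def M (θ k δ t : ℝ) : ℝ :=
  (∫ u in t..(t + δ ^ (-θ)), ‖riemannZeta (1 / 2 + δ + u * Complex.I)‖ ^ (2 * k)) / (δ * m θ δ ^ (2 * k))

open Run7.h291.WN Run7.h291.WG Pool.Agent.N748.MG

theorem result (θ K κ : ℝ) (hθ : 0 < θ) (hκ : 0 < κ) :
    (∀ ε : ℝ, 0 < ε → ∃ C lam δ0 : ℝ, 0 < C ∧ 0 < lam ∧ 0 < δ0 ∧ δ0 ≤ 1 / 16 ∧ ∀ᶠ T : ℝ in atTop,
      ∀ δ : ℝ, 0 < δ → δ ≤ δ0 → lam * Real.log (1 / δ) ^ 2 ≤ δ * Real.log T →
      volume {t : ℝ | t ∈ Set.Icc 0 T ∧ ¬ ∀ k ∈ Set.Icc (√(1 + θ) + κ) K, 1 / C ≤ M θ k δ t ∧ M θ k δ t ≤ C} ≤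
        ENNReal.ofReal (ε * T)) ∧
    (∃ c C lam δ0 : ℝ, 0 < c ∧ 0 < C ∧ 0 < lam ∧ 0 < δ0 ∧ δ0 ≤ 1 / 16 ∧ ∀ᶠ T : ℝ in atTop,
      ∀ δ : ℝ, 0 < δ → δ ≤ δ0 → lam * Real.log (1 / δ) ^ 2 ≤ δ * Real.log T →
      ∀ k ∈ Set.Icc (√(1 + θ) + κ) K, ∀ x : ℝ, 1 ≤ x → x ≤ Real.exp (Real.log (1 / δ) ^ ((1:ℝ) / 5)) →
      ENNReal.ofReal (c * x ^ (-(√(1 + θ) / k)) * T) ≤ volume {t : ℝ | t ∈ Set.Icc 0 T ∧ x ≤ M θ k δ t} ∧
      volume {t : ℝ | t ∈ Set.Icc 0 T ∧ x ≤ M θ k δ t} ≤ ENNReal.ofReal (C * x ^ (-(√(1 + θ) / k)) * T)) := by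
  set V : ℝ := √(1 + θ) with hV
  have hV2 : V ^ 2 - 1 = θ := by
    rw [hV, Real.sq_sqrt (by linarith)]
    ring
  have hV1 : 1 < V := by
    rw [hV]
    exact Real.lt_sqrt_of_sq_lt (by linarith)
  have hm : ∀ δ : ℝ, 0 < δ → δ ≤ 1 / 16 → 0 < m θ δ := fun δ h0 h1 => by
    have h2 : m θ δ = MM θ δ := rfl
    rw [h2, ← MM_lev hθ h0 h1]
    exact Real.exp_pos _
  refine ⟨fun ε hε => ?_, ?_⟩
  · obtain ⟨C, hC, lam, δ0, h1, h2, h3, HE⟩ := main Run7.h701.MX.mxu hθ K (min ε κ) (lt_min hε hκ)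
    refine ⟨C, lam, δ0, hC, h1, h2, h3, ?_⟩
    filter_upwards [HE, eventually_ge_atTop 0] with T hT hT0 δ hδ hδ0 hl
    refine (measure_mono ?_).trans ((hT δ hδ hδ0 hl).trans (ENNReal.ofReal_le_ofReal
      (mul_le_mul_of_nonneg_right (min_le_left _ _) hT0)))
    rintro t ⟨⟨t0, t1⟩, ht⟩
    refine ⟨t0, t1, fun hG => ht fun k hk => ?_⟩
    have h5 := hm δ hδ (hδ0.trans h3)
    have h6 : 0 < δ * m θ δ ^ (2 * k) := mul_pos hδ (Real.rpow_pos_of_pos h5 _)
    have hk1 : V + min ε κ ≤ k := le_trans (by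
      have := min_le_right ε κ
      linarith) hk.1
    have g1 := hG.mup k hk1 hk.2
    have g2 := hG.mlow k (by
      have := hk.1
      linarith) hk.2
    unfold M
    constructor
    · rw [le_div_iff₀ h6]
      refine le_trans (le_of_eq ?_) g2
      rw [one_div, ← div_eq_inv_mul]
      rfl
    · rw [div_le_iff₀ h6]
      exact g1
  · obtain ⟨c, C, hc, hC, lam, δ0, h1, h2, h3, HE⟩ := tails_mom hV1 hκ K
    refine ⟨c, C, lam, δ0, hc, hC, h1, h2, h3, HE.mono fun T hT δ hδ hδ0 hl k hk x hx hx2 => ?_⟩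
    have hx0 : 0 < x := by linarith
    have hk0 : 1 < k := by
      have := hk.1
      linarith
    have hkp : 0 < k := by linarith
    set a : ℝ := Real.log x / (2 * k) with ha
    have ha0 : 0 ≤ a := div_nonneg (Real.log_nonneg hx) (by linarith)
    have ha2 : a ≤ Real.log (1 / δ) ^ ((1:ℝ) / 5) := by
      have g1 : Real.log x ≤ Real.log (1 / δ) ^ ((1:ℝ) / 5) := by
        rw [← Real.log_exp (Real.log (1 / δ) ^ ((1:ℝ) / 5))]
        exact Real.log_le_log hx0 hx2
      refine le_trans ?_ g1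
      exact div_le_self (Real.log_nonneg hx) (by linarith)
    obtain ⟨g1, g2⟩ := hT δ hδ hδ0 hl k hk.1 hk.2 a ha0 ha2
    have e0 : 2 * k * a = Real.log x := by
      rw [ha]
      field_simp
    have e1 : Real.exp (-(2 * V * a)) = x ^ (-(V / k)) := by
      rw [Real.rpow_def_of_pos hx0]
      congr 1
      rw [ha]
      field_simp
    have e2 : Real.exp (2 * k * lev V δ) = m θ δ ^ (2 * k) := by
      have h4 : m θ δ = Real.exp (lev V δ) := (MM_lev hθ hδ (hδ0.trans h3)).symm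
      rw [h4, ← Real.exp_mul]
      congr 1
      ring
    have h5 := hm δ hδ (hδ0.trans h3)
    have h6 : 0 < δ * m θ δ ^ (2 * k) := mul_pos hδ (Real.rpow_pos_of_pos h5 _)
    have e3 : {t : ℝ | 0 ≤ t ∧ t ≤ T ∧ Real.exp (2 * k * a) * (δ * Real.exp (2 * k * lev V δ)) ≤
        ∫ u in t..(t + δ ^ (-(V ^ 2 - 1))), mz δ u ^ (2 * k)} = {t : ℝ | t ∈ Set.Icc 0 T ∧ x ≤ M θ k δ t} := by
      ext t
      rw [e0, Real.exp_log hx0, e2, hV2]
      unfold M
      simp only [Set.mem_setOf_eq, Set.mem_Icc]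
      rw [le_div_iff₀ h6, and_assoc]
      rfl
    rw [e1, e3] at g1 g2
    exact ⟨g1, g2⟩

end Pool.Agent.Results.MP_6a632e_nt.FrozenMoments
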