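import Pool.Agent.Run7.h701.LW.D
import Pool.Agent.Run7.h651.WN.LAW
import Pool.Agent.Run7.h42.WN_MNB
import Pool.Agent.Run7.h772.WN_ZML

set_option autoImplicit false

/-!
# Moments of small order in windows of any length which tends to infinity

Let `0 < k < 1/√2`. At distance `δ` from the critical line the mean of `|ζ(1/2 + δ + iu)|^(2k)` over almost every window
`[t, t + H]` with `H` large is close to the predicted moment `a(k) (2δ)^(-k²)`: here `H` is only at least a constant which
depends on `k` and the precision, so `H` may tend to infinity arbitrarily slowly as `δ → 0`; and in the moment measure of the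
window the normalised logarithm of `|ζ|` has the standard normal law. Both statements hold for all `H` up to `δ^(-D)` and
all levels at once, for almost all `t ∈ [0, T]`. (For `k > 1` the length has to be more than `δ^(-(k² - 1))`.)

The proof is the second moment method for the weight without a barrier: the two-point function is integrable for `2k² < 1`.
The mean of the two-point function over long intervals (`S_MNB`) is by helper42, the law of the normalised logarithms under
the measures with the weight `∏ |ζ|^(2k)` (`S_LAW`) by helper651, the moments of zeta without small primes near the line `1`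
(`S_ZML`) by helper772, the general argument for windows (`asm`, `dev_le`) by helper291, the maximal inequality by helper311;
the joint moments outside tiny sets are the starting library `N748/MJ`.
-/

namespace Pool.Agent.Results.MP_6a632e_nt.SlowlyGrowingWindows

open MeasureTheory Filter Topology

/-- the arithmetic factor of the moment conjecture,
`a(k) = ∏_p (1 - 1/p)^(k²) ∑_m (k (k+1) ... (k+m-1) / m!)² p^(-m)` -/
noncomputable def ak (k : ℝ) : ℝ :=
  ∏' p : Nat.Primes, ((1 - 1 / (p : ℝ)) ^ (k ^ 2) *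
    ∑' m : ℕ, (∏ i ∈ Finset.range m, (k + i) / ((i : ℝ) + 1)) ^ 2 * (1 / (p : ℝ)) ^ m)

/-- the modulus of zeta at distance `δ` from the critical line and height `u` -/
noncomputable def z (δ u : ℝ) : ℝ := ‖riemannZeta (1 / 2 + δ + u * Complex.I)‖

/-- the level `y`: `k log (1/δ) + y √(log (1/δ) / 2)` -/
noncomputable def V (k y δ : ℝ) : ℝ := k * Real.log (1 / δ) + y * Real.sqrt (Real.log (1 / δ) / 2)

/-- the mean of `|ζ|^(2k)` over the window `[t, t + H]` -/
noncomputable def M (k δ t H : ℝ) : ℝ := (1 / H) * ∫ u in Set.Icc t (t + H), z δ u ^ (2 * k)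

/-- the part of this mean which comes from the points at which `log |ζ|` is at most the level `y` -/
noncomputable def W (k y δ t H : ℝ) : ℝ :=
  (1 / H) * ∫ u in Set.Icc t (t + H) ∩ {u : ℝ | Real.log (z δ u) ≤ V k y δ}, z δ u ^ (2 * k)

/-- the prediction -/
noncomputable def P (k δ : ℝ) : ℝ := ak k * (2 * δ) ^ (-(k ^ 2))

/-- the distribution function of the standard normal law -/
noncomputable def Phi (x : ℝ) : ℝ := (ProbabilityTheory.gaussianReal 0 1).real (Set.Iic x)

open Run7.h291.WN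
open Pool.Agent.N748.MG hiding Phi

lemma conv {k δ : ℝ} (hδ : 0 < δ) (I : ℝ) : I / P k δ = (2 * δ) ^ (k ^ 2) / akR k * I := by
  have h1 : P k δ = akR k * (2 * δ) ^ (-(k ^ 2)) := rfl
  have h2 := akp k
  have h3 : (0:ℝ) < (2 * δ) ^ (k ^ 2) := Real.rpow_pos_of_pos (by linarith) _
  rw [h1, Real.rpow_neg (by linarith)]
  field_simp

lemma convM {k δ t H : ℝ} (hδ : 0 < δ) (hH : 0 < H) :
    M k δ t H / P k δ = (1 / H) * (∫ u in t..(t + H), Zk k δ u) := by
  rw [conv hδ, intervalIntegral.integral_of_le (by linarith), ← integral_Icc_eq_integral_Ioc]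
  unfold M Zk
  rw [integral_const_mul]
  unfold z mz pw
  ring

lemma zmz (δ u : ℝ) : z δ u = mz δ u := by
  unfold z mz pw
  rfl

lemma convW {k y δ t H : ℝ} (hk : 0 < k) (hδ : 0 < δ) (h1 : δ ≤ 1 / 16) (hH : 0 < H) :
    W k y δ t H / P k δ = Run7.h701.LW.Jw k y δ t H := by
  unfold Run7.h701.LW.Jw
  rw [conv hδ, intervalIntegral.integral_of_le (by linarith), ← integral_Icc_eq_integral_Ioc]
  unfold W
  have hc : Continuous fun u => z δ u := by
    have h2 : (fun u => z δ u) = fun u => mz δ u := funext fun u => zmz δ u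
    rw [h2]
    exact TMA.cont h1
  have hmS : MeasurableSet {u : ℝ | Real.log (z δ u) ≤ V k y δ} :=
    measurableSet_le (Real.measurable_log.comp hc.measurable) measurable_const
  rw [← setIntegral_indicator hmS]
  have h3 : ∫ u in Set.Icc t (t + H), Run7.h701.LW.Zy k y δ u =
      ∫ u in Set.Icc t (t + H), (2 * δ) ^ (k ^ 2) / akR k *
        ({u : ℝ | Real.log (z δ u) ≤ V k y δ}.indicator (fun u => z δ u ^ (2 * k)) u) := by
    refine integral_congr_ae (Eventually.of_forall fun u => ?_)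
    show Run7.h701.LW.Zy k y δ u = (2 * δ) ^ (k ^ 2) / akR k *
        ({u : ℝ | Real.log (z δ u) ≤ V k y δ}.indicator (fun u => z δ u ^ (2 * k)) u)
    unfold Run7.h701.LW.Zy
    have hz0 : 0 ≤ z δ u := norm_nonneg _
    rcases hz0.eq_or_lt with h4 | h4
    · have h5 : z δ u ^ (2 * k) = 0 := by
        rw [← h4, Real.zero_rpow (by positivity)]
      have h6 : Zk k δ u = 0 := by
        unfold Zk
        rw [← zmz, h5, mul_zero]
      simp only [Set.indicator_apply, h5, h6, ite_self, mul_zero]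
    · have h5 : mz δ u ≤ Real.exp (Run7.h291.WC.Vl k y δ) ↔ Real.log (z δ u) ≤ V k y δ := by
        rw [← zmz]
        exact (Real.log_le_iff_le_exp h4).symm
      by_cases h6 : Real.log (z δ u) ≤ V k y δ
      · rw [Set.indicator_of_mem (show u ∈ {v : ℝ | mz δ v ≤ Real.exp (Run7.h291.WC.Vl k y δ)} from h5.2 h6),
          Set.indicator_of_mem (show u ∈ {u : ℝ | Real.log (z δ u) ≤ V k y δ} from h6)]
        unfold Zk
        rw [← zmz]
      · rw [Set.indicator_of_notMem (show u ∉ {v : ℝ | mz δ v ≤ Real.exp (Run7.h291.WC.Vl k y δ)} from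
            fun h7 => h6 (h5.1 h7)),
          Set.indicator_of_notMem (show u ∉ {u : ℝ | Real.log (z δ u) ≤ V k y δ} from h6), mul_zero]
  rw [h3, integral_const_mul]
  ring

theorem result (k D : ℝ) (hk0 : 0 < k) (hk1 : 2 * k ^ 2 < 1) (ε : ℝ) (hε : 0 < ε) :
    0 < ak k ∧ ∃ H0 lam δ0 : ℝ, 0 < H0 ∧ 0 < lam ∧ 0 < δ0 ∧ δ0 ≤ 1 / 16 ∧ ∀ᶠ T : ℝ in atTop, ∀ δ : ℝ, 0 < δ → δ ≤ δ0 →
      lam * Real.log (1 / δ) ^ 2 ≤ δ * Real.log T →
      volume {t : ℝ | t ∈ Set.Icc 0 T ∧ ¬ ∀ H : ℝ, H0 ≤ H → H ≤ δ ^ (-D) →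
        |M k δ t H / P k δ - 1| < ε ∧ ∀ y : ℝ, |W k y δ t H / P k δ - Phi y| < ε} ≤ ENNReal.ofReal (ε * T) := by
  have hM := Run7.h42.WN.mnb Run7.h772.zml
  have hL := Run7.h651.WN.law
  refine ⟨akp k, ?_⟩
  obtain ⟨H0, hH0, lam, δ0, h1, h2, h3, h4⟩ :=
    Run7.h701.LW.law_s hM hL k (max D 0) hk0 hk1 (le_max_right _ _) ε hε
  refine ⟨H0, lam, δ0, hH0, h1, h2, h3, h4.mono ?_⟩
  intro T hT δ hδ hδ0 hl
  have hδ1 : δ ≤ 1 / 16 := hδ0.trans h3
  have hDD : ∀ H : ℝ, H ≤ δ ^ (-D) → H ≤ δ ^ (-(max D 0)) := fun H hH =>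
    hH.trans (Real.rpow_le_rpow_of_exponent_ge hδ (by linarith) (neg_le_neg (le_max_left _ _)))
  refine le_trans (measure_mono ?_) (hT δ hδ hδ0 hl)
  rintro t ⟨⟨t0, t1⟩, ht⟩
  simp only [not_forall] at ht
  obtain ⟨H, hH1, hH2, ht⟩ := ht
  have hH : 0 < H := lt_of_lt_of_le hH0 hH1
  rw [convM hδ hH] at ht
  by_cases hc : |(1 / H) * (∫ u in t..(t + H), Zk k δ u) - 1| < ε
  · have ht2 : ¬ ∀ y : ℝ, |W k y δ t H / P k δ - Phi y| < ε := fun h => ht ⟨hc, h⟩
    push Not at ht2
    obtain ⟨y, hy⟩ := ht2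
    rw [convW hk0 hδ hδ1 hH] at hy
    exact ⟨t0, t1, H, hH1, hDD H hH2, y, Or.inl hy⟩
  · exact ⟨t0, t1, H, hH1, hDD H hH2, 0, Or.inr (not_lt.1 hc)⟩

end Pool.Agent.Results.MP_6a632e_nt.SlowlyGrowingWindows
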