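import Pool.Agent.Run7.h310.SP.C1

set_option autoImplicit false

/-!
# The moments of all orders of zeta along every vertical arithmetic progression near the critical line

The points are `1/2 + d + i (α n + β)`, `n < N`, for arbitrary real `α > 0` and `β`; `d = d(N) → 0` slowly. The moment of
order `2k` over the points where `|ζ|` is at most `(2d)^(-V)`, `V > k`, is asymptotically `a(k) c (2d)^(-k²)` where `c` comes
from the exact resonances, that is from the integers `j` with `exp (2πj/α)` rational; `c = 1` if there are none but `j = 0`.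

Plan, twisted diagonal sums, resonances and assembly by helper310; the passage from mean squares to sample points by
helper270 and helper701 on the starting library `N748/MG`.
-/

namespace Pool.Agent.Results.MP_6a632e_nt.VerticalProgressions

open Filter Topology

/-- the coefficients of `(1 - x)^(-k)` -/
noncomputable def cf (k : ℝ) (m : ℕ) : ℝ := ∏ i ∈ Finset.range m, (k + i) / ((i : ℝ) + 1)

/-- the arithmetic factor of the moment conjecture -/
noncomputable def ak (k : ℝ) : ℝ :=
  ∏' p : Nat.Primes, ((1 - 1 / (p : ℝ)) ^ (k ^ 2) * ∑' m : ℕ, cf k m ^ 2 * (1 / (p : ℝ)) ^ m)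

/-- the local factor: the coefficient sums at the prime `p` with shifts `u` and `v` -/
noncomputable def lf (k : ℝ) (p u v : ℕ) : ℝ :=
  ∑' m : ℕ, cf k (m + u) * cf k (m + v) * (p : ℝ) ^ (-((2 * m + u + v : ℕ) : ℝ) / 2)

/-- the factor of the twist by `a/b`: a product over the primes dividing `ab` -/
noncomputable def tau (k : ℝ) (a b : ℕ) : ℝ :=
  ∏ p ∈ (a * b).primeFactors, lf k p (a.factorization p) (b.factorization p) / lf k p 0 0

/-- the modulus of zeta at distance `d` from the critical line and height `t` -/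
noncomputable def z (d t : ℝ) : ℝ := ‖riemannZeta (1 / 2 + d + t * Complex.I)‖

open Classical in
/-- the moment of order `2k` over the first `N` points of the progression at which `|ζ| ≤ c` -/
noncomputable def M (k c d α β : ℝ) (N : ℕ) : ℝ :=
  (1 / (N : ℝ)) * ∑ n ∈ Finset.range N, if z d (α * n + β) ≤ c then z d (α * n + β) ^ (2 * k) else 0

open Run7.h310.SP Pool.Agent.N748.MG

lemma tau_eq (k : ℝ) (a b : ℕ) : tau k a b = tw k a b := by
  unfold tau tw
  refine Finset.prod_congr rfl fun p hp => ?_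
  have hp1 : 1 ≤ p := (Nat.prime_of_mem_primeFactors hp).one_lt.le
  rw [LF_zero_eq k hp1, LF_zero_eq k hp1]
  rfl

lemma M_eq (k c d α β : ℝ) (N : ℕ) : M k c d α β N = MI k c d (fun i => α * i + β) N := by
  classical
  unfold M MI
  rw [Finset.sum_filter]
  rfl

lemma rat_iff {α : ℝ} (hα : 0 < α) {a b : ℕ} (ha : 1 ≤ a) (hb : 1 ≤ b) (j : ℤ) :
    α * (Real.log b - Real.log a) = 2 * Real.pi * j ↔ (b : ℝ) / a = Real.exp (2 * Real.pi * j / α) := by
  have haR : (0:ℝ) < a := by exact_mod_cast ha
  have hbR : (0:ℝ) < b := by exact_mod_cast hb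
  rw [← Real.log_div hbR.ne' haR.ne']
  constructor
  · intro h
    have h1 : Real.log (b / a) = 2 * Real.pi * j / α := by
      rw [eq_div_iff hα.ne']
      linarith
    rw [← h1, Real.exp_log (by positivity)]
  · intro h
    rw [h, Real.log_exp]
    field_simp

theorem result (α β : ℝ) (hα : 0 < α) (k : ℝ) (hk : 0 < k) : 0 < ak k ∧ ∃ r : ℤ → ℝ,
    (∀ (j : ℤ) (a b : ℕ), 1 ≤ a → 1 ≤ b → Nat.Coprime a b → (b : ℝ) / a = Real.exp (2 * Real.pi * j / α) →
      r j = tau k a b) ∧
    (∀ j : ℤ, (∀ q : ℚ, (q : ℝ) ≠ Real.exp (2 * Real.pi * j / α)) → r j = 0) ∧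
    Summable (fun j : ℤ => r j * Real.cos (2 * Real.pi * j * β / α)) ∧
    ∀ (V : ℝ), k < V → ∀ d : ℕ → ℝ, (∀ᶠ N in atTop, 0 < d N) → Tendsto d atTop (𝓝 0) →
      Tendsto (fun N : ℕ => d N * Real.log N / Real.log (1 / d N) ^ 2) atTop atTop →
      Tendsto (fun N : ℕ => M k ((2 * d N) ^ (-V)) (d N) α β N / (ak k * (2 * d N) ^ (-(k ^ 2)))) atTop
        (𝓝 (∑' j : ℤ, r j * Real.cos (2 * Real.pi * j * β / α))) := by
  classical
  have hak : ak k = akR k := rfl
  have hpos : 0 < ak k := (aC_akR k).1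
  refine ⟨hpos, res k α, ?_, ?_, ?_, ?_⟩
  · intro j a b ha hb hab h
    have h1 := (rat_iff hα ha hb j).2 h
    rw [res_eq hα ha hb hab h1, tau_eq]
  · intro j hj
    unfold res
    rw [dif_neg]
    rintro ⟨q, h1, h2, h3, h4⟩
    have h5 := (rat_iff hα h1 h2 j).1 h4
    refine hj ((q.2 : ℚ) / q.1) ?_
    push_cast
    exact h5
  · exact res_summable hk hα β
  · intro V hV d hd0 hd hdL
    have h := ap_fin redF hα β hd0 hd hdL hk hV
    rw [aC_re, ← hak] at h
    have h2 := h.div_const (ak k)
    rw [mul_div_cancel_left₀ _ hpos.ne'] at h2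
    unfold cAP at h2
    refine h2.congr' ?_
    filter_upwards [hd0] with N hN
    rw [M_eq]
    have h3 : (0:ℝ) < 2 * d N := by linarith
    have h4 : (2 * d N) ^ (-(k ^ 2)) = ((2 * d N) ^ (k ^ 2))⁻¹ := Real.rpow_neg h3.le _
    have h5 : (0:ℝ) < (2 * d N) ^ (k ^ 2) := Real.rpow_pos_of_pos h3 _
    rw [h4]
    field_simp

end Pool.Agent.Results.MP_6a632e_nt.VerticalProgressions
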